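import Mathlib
import Pool.Agent.H759R2.Kad.Props3
import Pool.Agent.H834R2.Kad2.Rec

/-!
Task 01 of h759k_tasks: one averaging family of unitaries.
-/

open scoped ComplexOrder InnerProductSpace ComplexConjugate
open Finset

noncomputable section

namespace H759R2.Kad

universe u v

namespace F804

section fav

variable {V : Type*} [AddCommGroup V] [Module ℂ V]

theorem fav_prod (Ω Ω' : Type) [Fintype Ω] [Fintype Ω'] (f : Ω × Ω' → V) :
    fav (Ω × Ω') f = fav Ω (fun s => fav Ω' (fun t => f (s, t))) := by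
  unfold fav
  rw [Fintype.card_prod, Fintype.sum_prod_type, ← Finset.smul_sum, smul_smul]
  congr 1
  push_cast
  rw [mul_inv]

theorem fav_prod' (Ω Ω' : Type) [Fintype Ω] [Fintype Ω'] (f : Ω × Ω' → V) :
    fav (Ω × Ω') f = fav Ω' (fun t => fav Ω (fun s => f (s, t))) := by
  unfold fav
  rw [Fintype.card_prod, Fintype.sum_prod_type, ← Finset.smul_sum, smul_smul, Finset.sum_comm]
  congr 1
  push_cast
  rw [mul_inv, mul_comm]

theorem fav_const (Ω : Type) [Fintype Ω] [Nonempty Ω] (c : V) : fav Ω (fun _ => c) = c := by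
  unfold fav
  rw [Finset.sum_const, Finset.card_univ, ← Nat.cast_smul_eq_nsmul ℂ, smul_smul, inv_mul_cancel₀,
    one_smul]
  exact_mod_cast Fintype.card_ne_zero

theorem fav_sub (Ω : Type) [Fintype Ω] (f g : Ω → V) :
    fav Ω (fun s => f s - g s) = fav Ω f - fav Ω g := by
  unfold fav
  rw [Finset.sum_sub_distrib, smul_sub]

theorem fav_add (Ω : Type) [Fintype Ω] (f g : Ω → V) :
    fav Ω (fun s => f s + g s) = fav Ω f + fav Ω g := by
  unfold fav
  rw [Finset.sum_add_distrib, smul_add]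

theorem fav_smul (Ω : Type) [Fintype Ω] (c : ℂ) (f : Ω → V) :
    fav Ω (fun s => c • f s) = c • fav Ω f := by
  unfold fav
  rw [← Finset.smul_sum, smul_comm]

end fav

section norm

variable {V : Type*} [NormedAddCommGroup V] [NormedSpace ℂ V]

theorem norm_fav_le (Ω : Type) [Fintype Ω] [Nonempty Ω] (f : Ω → V) (M : ℝ)
    (h : ∀ s, ‖f s‖ ≤ M) : ‖fav Ω f‖ ≤ M := by
  unfold fav
  rw [norm_smul, norm_inv, Complex.norm_natCast]
  have hc : (0:ℝ) < Fintype.card Ω := by exact_mod_cast Fintype.card_pos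
  rw [inv_mul_le_iff₀ hc]
  calc ‖∑ s, f s‖ ≤ ∑ s, ‖f s‖ := norm_sum_le _ _
    _ ≤ ∑ _s : Ω, M := Finset.sum_le_sum fun s _ => h s
    _ = Fintype.card Ω * M := by rw [Finset.sum_const, Finset.card_univ, nsmul_eq_mul]

end norm

variable {B : Type u} [CStarAlgebra B]

/-- conjugation average `avg g y g*` -/
def avr (Ω : Type) [Fintype Ω] (g : Ω → unitary B) (y : B) : B :=
  fav Ω (fun s => (g s : B) * y * star (g s : B))

/-- conjugation average `avg g* y g` -/
def avl (Ω : Type) [Fintype Ω] (g : Ω → unitary B) (y : B) : B :=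
  fav Ω (fun s => star (g s : B) * y * (g s : B))

theorem uu (u : unitary B) : (u : B) * star (u : B) = 1 := Unitary.coe_mul_star_self u
theorem uu' (u : unitary B) : star (u : B) * (u : B) = 1 := Unitary.coe_star_mul_self u

theorem norm_conj_le (u : unitary B) (y : B) : ‖(u : B) * y * star (u : B)‖ ≤ ‖y‖ := by
  rw [← Unitary.coe_star, CStarRing.norm_mul_coe_unitary, CStarRing.norm_coe_unitary_mul]

theorem norm_conj_le' (u : unitary B) (y : B) : ‖star (u : B) * y * (u : B)‖ ≤ ‖y‖ := by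
  rw [← Unitary.coe_star, CStarRing.norm_mul_coe_unitary, CStarRing.norm_coe_unitary_mul]

theorem conj_alg (u : unitary B) (c : ℂ) :
    (u : B) * algebraMap ℂ B c * star (u : B) = algebraMap ℂ B c := by
  rw [← Algebra.commutes c (u : B), mul_assoc, uu, mul_one]

theorem conj_alg' (u : unitary B) (c : ℂ) :
    star (u : B) * algebraMap ℂ B c * (u : B) = algebraMap ℂ B c := by
  rw [← Algebra.commutes c (star (u : B)), mul_assoc, uu', mul_one]

theorem avr_contr (Ω : Type) [Fintype Ω] [Nonempty Ω] (g : Ω → unitary B) (z : B) (c : ℂ) :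
    ‖avr Ω g z - algebraMap ℂ B c‖ ≤ ‖z - algebraMap ℂ B c‖ := by
  have e : avr Ω g z - algebraMap ℂ B c =
      fav Ω (fun s => (g s : B) * (z - algebraMap ℂ B c) * star (g s : B)) := by
    have e1 : (fun s => (g s : B) * (z - algebraMap ℂ B c) * star (g s : B)) =
        fun s => (g s : B) * z * star (g s : B) - algebraMap ℂ B c := by
      funext s
      rw [mul_sub, sub_mul, conj_alg]
    rw [e1, fav_sub, fav_const]
    rfl
  rw [e]
  exact norm_fav_le _ _ _ fun s => norm_conj_le _ _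

theorem avr_sa (Ω : Type) [Fintype Ω] (g : Ω → unitary B) {z : B} (hz : IsSelfAdjoint z) :
    IsSelfAdjoint (avr Ω g z) := by
  rw [IsSelfAdjoint]
  unfold avr fav
  rw [star_smul, star_sum]
  congr 1
  · rw [star_inv₀]
    simp
  · refine Finset.sum_congr rfl fun s _ => ?_
    rw [star_mul, star_mul, star_star, hz.star_eq]
    exact (mul_assoc _ _ _).symm

theorem tau_avr (Ω : Type) [Fintype Ω] [Nonempty Ω] (g : Ω → unitary B) {τ : B →ₗ[ℂ] ℂ}
    (hτ : IsTracialState τ) (z : B) : τ (avr Ω g z) = τ z := by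
  unfold avr fav
  rw [map_smul, map_sum]
  have h : ∀ s, τ ((g s : B) * z * star (g s : B)) = τ z := by
    intro s
    rw [hτ.comm, ← mul_assoc, uu', one_mul]
  rw [Finset.sum_congr rfl (fun s _ => h s), Finset.sum_const, Finset.card_univ, nsmul_eq_mul,
    smul_eq_mul, ← mul_assoc, inv_mul_cancel₀, one_mul]
  exact_mod_cast Fintype.card_ne_zero

/-- product families -/
theorem avr_prod (Ω Ω' : Type) [Fintype Ω] [Fintype Ω'] (h : Ω → unitary B) (g : Ω' → unitary B)
    (y : B) : avr (Ω × Ω') (fun p => h p.1 * g p.2) y = avr Ω h (avr Ω' g y) := by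
  unfold avr
  rw [fav_prod]
  congr 1
  funext s
  have e : (fun t => (((h s * g t : unitary B) : B) * y * star ((h s * g t : unitary B) : B))) =
      fun t => (h s : B) * ((g t : B) * y * star (g t : B)) * star (h s : B) := by
    funext t
    rw [Submonoid.coe_mul, star_mul]
    noncomm_ring
  rw [e]
  unfold fav
  rw [mul_smul_comm, smul_mul_assoc, Finset.mul_sum, Finset.sum_mul]

/-- (A) for self-adjoint elements -/
theorem famA_sa {τ : B →ₗ[ℂ] ℂ} (hτ : IsTracialState τ) (hd : HasDixmier τ) (ε : ℝ) (hε : 0 < ε)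
    (l : List B) : (∀ y ∈ l, IsSelfAdjoint y) → ∃ (Ω : Type) (_ : Fintype Ω) (_ : Nonempty Ω)
      (g : Ω → unitary B), ∀ y ∈ l, ‖avr Ω g y - algebraMap ℂ B (τ y)‖ ≤ ε := by
  induction l with
  | nil =>
    intro _
    exact ⟨Unit, inferInstance, inferInstance, fun _ => 1, fun y hy => by simp at hy⟩
  | cons y l ih =>
    intro hl
    obtain ⟨Ω, i1, i2, g, hg⟩ := ih (fun z hz => hl z (List.mem_cons_of_mem _ hz))
    have hz := avr_sa Ω g (hl y List.mem_cons_self)
    obtain ⟨N, h, hh⟩ := hd _ hz ε hε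
    refine ⟨Fin (N + 1) × Ω, inferInstance, inferInstance, fun p => h p.1 * g p.2, ?_⟩
    intro z hz'
    rw [avr_prod]
    rcases List.mem_cons.1 hz' with rfl | hz'
    · rw [tau_avr Ω g hτ] at hh
      unfold avr at hh ⊢
      unfold fav at hh ⊢
      rw [Fintype.card_fin]
      push_cast
      exact hh
    · exact (avr_contr _ _ _ _).trans (hg z hz')

/-- (A) -/
theorem famA {τ : B →ₗ[ℂ] ℂ} (hτ : IsTracialState τ) (hd : HasDixmier τ) (ε : ℝ) (hε : 0 < ε)
    (Y : Set B) (hY : Y.Finite) : ∃ (Ω : Type) (_ : Fintype Ω) (_ : Nonempty Ω)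
      (g : Ω → unitary B), ∀ y ∈ Y, ‖avr Ω g y - algebraMap ℂ B (τ y)‖ ≤ ε := by
  classical
  set l1 := hY.toFinset.toList with hl1
  have hm : ∀ y, y ∈ l1 ↔ y ∈ Y := by intro y; simp [hl1]
  obtain ⟨Ω, i1, i2, g, hg⟩ := famA_sa hτ hd (ε / 2) (by linarith)
    (l1.map (fun y => ((realPart y : selfAdjoint B) : B)) ++
      l1.map (fun y => ((imaginaryPart y : selfAdjoint B) : B))) (by
      intro z hz
      rw [List.mem_append, List.mem_map, List.mem_map] at hz
      rcases hz with ⟨y, -, rfl⟩ | ⟨y, -, rfl⟩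
      · exact (realPart y).2
      · exact (imaginaryPart y).2)
  refine ⟨Ω, i1, i2, g, fun y hy => ?_⟩
  have h1 := hg ((realPart y : selfAdjoint B) : B) (by
    rw [List.mem_append]
    left
    exact List.mem_map.2 ⟨y, (hm y).2 hy, rfl⟩)
  have h2 := hg ((imaginaryPart y : selfAdjoint B) : B) (by
    rw [List.mem_append]
    right
    exact List.mem_map.2 ⟨y, (hm y).2 hy, rfl⟩)
  have e : y = ((realPart y : selfAdjoint B) : B) +
      Complex.I • ((imaginaryPart y : selfAdjoint B) : B) :=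
    (realPart_add_I_smul_imaginaryPart y).symm
  set a := ((realPart y : selfAdjoint B) : B)
  set b := ((imaginaryPart y : selfAdjoint B) : B)
  have e1 : avr Ω g (a + Complex.I • b) = avr Ω g a + Complex.I • avr Ω g b := by
    unfold avr
    rw [← fav_smul, ← fav_add]
    congr 1
    funext s
    rw [mul_add, add_mul, mul_smul_comm, smul_mul_assoc]
  have e2 : algebraMap ℂ B (τ (a + Complex.I • b)) =
      algebraMap ℂ B (τ a) + Complex.I • algebraMap ℂ B (τ b) := by
    rw [map_add, map_smul, map_add, smul_eq_mul, map_mul, Algebra.smul_def]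
  rw [e, e1, e2]
  have e3 : avr Ω g a + Complex.I • avr Ω g b -
      (algebraMap ℂ B (τ a) + Complex.I • algebraMap ℂ B (τ b)) =
      (avr Ω g a - algebraMap ℂ B (τ a)) + Complex.I • (avr Ω g b - algebraMap ℂ B (τ b)) := by
    rw [smul_sub]; abel
  rw [e3]
  refine (norm_add_le _ _).trans ?_
  rw [norm_smul, Complex.norm_I, one_mul]
  linarith

/-- Bessel -/
theorem bessel [PartialOrder B] [StarOrderedRing B] {τ : B →ₗ[ℂ] ℂ} (hτ : IsTracialState τ)
    {K : ℕ} (h : Fin K → unitary B)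
    (ho : ∀ i j, i ≠ j → τ (star (h i : B) * (h j : B)) = 0) (z : B) :
    ∑ j, ‖τ (star (h j : B) * z)‖ ^ 2 ≤ ‖z‖ ^ 2 := by
  classical
  set c : Fin K → ℂ := fun j => τ (star (h j : B) * z) with hc
  have hnn : ∀ i, τ (star (h i : B) * (h i : B)) = 1 := by
    intro i
    rw [uu', hτ.one]
  have hcc : ∀ j, τ (star z * (h j : B)) = conj (c j) := by
    intro j
    rw [hc]
    simp only
    rw [← Rec2.tracial_star hτ, star_mul, star_star]
  set w : B := z - ∑ j, c j • (h j : B) with hw
  have h0 := hτ.pos w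
  have e1 : star w * w = star z * z - ∑ j, c j • (star z * (h j : B)) -
      ∑ j, conj (c j) • (star (h j : B) * z) +
      ∑ i, ∑ j, (conj (c i) * c j) • (star (h i : B) * (h j : B)) := by
    rw [hw, star_sub, star_sum]
    simp only [star_smul]
    rw [sub_mul, mul_sub, mul_sub, Finset.mul_sum, Finset.sum_mul]
    have e2 : (∑ i, star (c i) • star (h i : B)) * ∑ j, c j • (h j : B) =
        ∑ i, ∑ j, (conj (c i) * c j) • (star (h i : B) * (h j : B)) := by
      rw [Finset.sum_mul_sum]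
      refine Finset.sum_congr rfl fun i _ => Finset.sum_congr rfl fun j _ => ?_
      rw [smul_mul_smul_comm]
      rfl
    rw [e2]
    simp only [mul_smul_comm, smul_mul_assoc]
    have : ∀ c : ℂ, star c = conj c := fun _ => rfl
    simp only [this]
    abel
  have e3 : τ (star w * w) = τ (star z * z) - ∑ j, ((‖c j‖ ^ 2 : ℝ) : ℂ) := by
    rw [e1, map_add, map_sub, map_sub, map_sum, map_sum, map_sum]
    simp only [map_sum, map_smul, smul_eq_mul, hcc]
    have e4 : ∀ i, ∑ j, conj (c i) * c j * τ (star (h i : B) * (h j : B)) =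
        ((‖c i‖ ^ 2 : ℝ) : ℂ) := by
      intro i
      rw [Finset.sum_eq_single i]
      · rw [hnn, mul_one, Complex.conj_mul']
        push_cast; rfl
      · intro j _ hj
        rw [ho i j hj.symm, mul_zero]
      · intro hi
        exact absurd (Finset.mem_univ i) hi
    rw [Finset.sum_congr rfl (fun i _ => e4 i)]
    have e5 : ∀ j, c j * conj (c j) = ((‖c j‖ ^ 2 : ℝ) : ℂ) := by
      intro j
      rw [Complex.mul_conj']
      push_cast; rfl
    have e6 : ∀ j, conj (c j) * τ (star (h j : B) * z) = ((‖c j‖ ^ 2 : ℝ) : ℂ) := by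
      intro j
      rw [← e5 j, mul_comm]
    rw [Finset.sum_congr rfl (fun j _ => e5 j), Finset.sum_congr rfl (fun j _ => e6 j)]
    ring
  rw [e3, Complex.le_def] at h0
  have h1 := h0.1
  rw [Complex.sub_re, ← Complex.ofReal_sum, Complex.ofReal_re] at h1
  simp only [Complex.zero_re] at h1
  have h2 : (τ (star z * z)).re ≤ ‖z‖ ^ 2 := by
    have h3 := Col.state_bound τ hτ (star z * z) (star_mul_self_nonneg z)
    rw [CStarRing.norm_star_mul_self] at h3
    have h4 := Complex.re_le_norm (τ (star z * z))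
    calc (τ (star z * z)).re ≤ ‖τ (star z * z)‖ := h4
      _ ≤ ‖z‖ * ‖z‖ := h3
      _ = _ := by ring
  linarith

/-- average of the projections onto orthogonal unitaries -/
theorem coef_one [PartialOrder B] [StarOrderedRing B] {τ : B →ₗ[ℂ] ℂ} (hτ : IsTracialState τ)
    {K : ℕ} (hK : 0 < K) (h : Fin K → unitary B)
    (ho : ∀ i j, i ≠ j → τ (star (h i : B) * (h j : B)) = 0) (z : B) {ε : ℝ} (hε : 0 < ε)
    (hKε : 1 / ε ^ 2 ≤ K) :
    ‖fav (Fin K) (fun j => τ (z * star (h j : B)) • (h j : B))‖ ≤ ε * ‖z‖ := by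
  have hK' : (0:ℝ) < K := by exact_mod_cast hK
  unfold fav
  rw [norm_smul, norm_inv, Complex.norm_natCast, Fintype.card_fin, inv_mul_le_iff₀ hK']
  have h1 : ‖∑ j, τ (z * star (h j : B)) • (h j : B)‖ ≤ ∑ j, ‖τ (star (h j : B) * z)‖ := by
    refine (norm_sum_le _ _).trans (Finset.sum_le_sum fun j _ => ?_)
    rw [norm_smul, hτ.comm z]
    have : ‖(h j : B)‖ ≤ 1 := Col.norm_unitary_le (h j)
    calc ‖τ (star (h j : B) * z)‖ * ‖(h j : B)‖ ≤ ‖τ (star (h j : B) * z)‖ * 1 := by gcongr
      _ = _ := mul_one _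
  refine h1.trans ?_
  have h2 := bessel hτ h ho z
  have h3 : (∑ j, ‖τ (star (h j : B) * z)‖) ^ 2 ≤ (K * (ε * ‖z‖)) ^ 2 := by
    calc (∑ j, ‖τ (star (h j : B) * z)‖) ^ 2
        ≤ (Finset.univ : Finset (Fin K)).card * ∑ j, ‖τ (star (h j : B) * z)‖ ^ 2 :=
          sq_sum_le_card_mul_sum_sq
      _ ≤ K * ‖z‖ ^ 2 := by
          rw [Finset.card_univ, Fintype.card_fin]
          gcongr
      _ ≤ (K * (ε * ‖z‖)) ^ 2 := by
          have h4 : 1 ≤ K * ε ^ 2 := by
            rw [div_le_iff₀ (by positivity)] at hKε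
            exact hKε
          have h5 : 0 ≤ (K:ℝ) * ‖z‖ ^ 2 := by positivity
          nlinarith
  exact le_of_sq_le_sq h3 (by positivity)

end F804

open F804 in
theorem prove3_fam1 : K_fam1.{u} := by
  intro B _ _ _ τ hτ hd ho Y hY ε hε
  classical
  obtain ⟨Ωb, i1, i2, b, hb⟩ := famA hτ hd ε hε Y hY
  obtain ⟨K, hK1, hK2⟩ : ∃ K : ℕ, 0 < K ∧ 1 / ε ^ 2 ≤ K := by
    obtain ⟨K, hK⟩ := exists_nat_ge (1 / ε ^ 2)
    refine ⟨K + 1, by omega, ?_⟩
    push_cast
    linarith
  obtain ⟨h, hh⟩ := ho K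
  haveI : Nonempty (Fin K) := ⟨⟨0, hK1⟩⟩
  -- the family
  let Ω : Type := Ωb × (Fin K × Ωb)
  let g : Ω → unitary B := fun p => star (b p.1) * (h p.2.1 * b p.2.2)
  have havr : ∀ y ∈ Y, ‖avr Ω g y - algebraMap ℂ B (τ y)‖ ≤ ε := by
    intro y hy
    have e : avr Ω g y = avr Ωb (fun s => star (b s)) (avr (Fin K) h (avr Ωb b y)) := by
      rw [← avr_prod (Fin K) Ωb h b y, ← avr_prod Ωb (Fin K × Ωb) (fun s => star (b s))
        (fun p => h p.1 * b p.2) y]
    rw [e]
    exact (avr_contr _ _ _ _).trans ((avr_contr _ _ _ _).trans (hb y hy))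
  have havl : ∀ y ∈ Y, ‖avl Ω g y - algebraMap ℂ B (τ y)‖ ≤ ε := by
    intro y hy
    have e : avl Ω g y = avr Ωb (fun s => star (b s)) (avr (Fin K) (fun j => star (h j))
        (avr Ωb b y)) := by
      rw [← avr_prod, ← avr_prod]
      unfold avl avr fav
      have hcard : Fintype.card (Ωb × (Fin K × Ωb)) = Fintype.card ((Ωb × Fin K) × Ωb) := by
        simp only [Fintype.card_prod]; ring
      rw [hcard]
      congr 1
      refine Fintype.sum_equiv ⟨fun p => ((p.2.2, p.2.1), p.1), fun q => (q.2, (q.1.2, q.1.1)),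
        fun p => rfl, fun q => rfl⟩ _ _ fun p => ?_
      obtain ⟨s, j, t⟩ := p
      simp only [g, Equiv.coe_fn_mk, Submonoid.coe_mul, Unitary.coe_star, star_mul, star_star]
    rw [e]
    exact (avr_contr _ _ _ _).trans ((avr_contr _ _ _ _).trans (hb y hy))
  have hcoef : ∀ y : B, ‖fav Ω (fun s => τ (y * star (g s : B)) • (g s : B))‖ ≤ ε * ‖y‖ := by
    intro y
    have e : fav Ω (fun s => τ (y * star (g s : B)) • (g s : B)) =
        fav Ωb (fun s => fav Ωb (fun t => star (b s : B) *
          (fav (Fin K) (fun j => τ (((b s : B) * y * star (b t : B)) * star (h j : B)) •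
            (h j : B))) * (b t : B))) := by
      rw [fav_prod]
      congr 1
      funext s
      rw [fav_prod']
      congr 1
      funext t
      unfold fav
      rw [mul_smul_comm, smul_mul_assoc, Finset.mul_sum, Finset.sum_mul]
      congr 1
      refine Finset.sum_congr rfl fun j _ => ?_
      simp only [g, Submonoid.coe_mul, Unitary.coe_star, star_mul, star_star]
      rw [mul_smul_comm, smul_mul_assoc]
      congr 1
      · rw [← mul_assoc y, hτ.comm _ (b s : B)]
        congr 1
        noncomm_ring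
      · noncomm_ring
    rw [e]
    refine norm_fav_le _ _ _ fun s => norm_fav_le _ _ _ fun t => ?_
    rw [CStarRing.norm_mul_coe_unitary, ← Unitary.coe_star, CStarRing.norm_coe_unitary_mul]
    refine (coef_one hτ hK1 h hh _ hε hK2).trans ?_
    rw [← Unitary.coe_star, CStarRing.norm_mul_coe_unitary, CStarRing.norm_coe_unitary_mul]
  have hcoef' : ∀ y : B, ‖fav Ω (fun s => τ (y * (g s : B)) • star (g s : B))‖ ≤ ε * ‖y‖ := by
    intro y
    have h1 := hcoef (star y)
    rw [norm_star] at h1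
    rw [← norm_star] at h1
    have e : star (fav Ω (fun s => τ (star y * star (g s : B)) • (g s : B))) =
        fav Ω (fun s => τ (y * (g s : B)) • star (g s : B)) := by
      unfold fav
      rw [star_smul, star_sum]
      congr 1
      · rw [star_inv₀]
        simp
      · refine Finset.sum_congr rfl fun s _ => ?_
        rw [star_smul]
        congr 1
        show conj (τ (star y * star (g s : B))) = _
        rw [← Rec2.tracial_star hτ, star_mul, star_star, star_star, hτ.comm]
    rwa [e] at h1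
  -- reindexing
  obtain ⟨k, hk⟩ : ∃ k, Fintype.card Ω = k + 1 := Nat.exists_eq_succ_of_ne_zero Fintype.card_ne_zero
  let e : Fin (k + 1) ≃ Ω := (Fintype.equivFinOfCardEq hk).symm
  have hre : ∀ f : Ω → B, ((k + 1 : ℂ))⁻¹ • ∑ s, f (e s) = fav Ω f := by
    intro f
    unfold fav
    rw [hk, Equiv.sum_comp e f]
    push_cast
    rfl
  refine ⟨k, fun s => g (e s), fun y hy => ⟨?_, ?_⟩, fun y => ⟨?_, ?_⟩⟩
  · rw [hre (fun s => star (g s : B) * y * (g s : B))]
    exact havl y hy
  · rw [hre (fun s => (g s : B) * y * star (g s : B))]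
    exact havr y hy
  · rw [hre (fun s => τ (y * star (g s : B)) • (g s : B))]
    exact hcoef y
  · rw [hre (fun s => τ (y * (g s : B)) • star (g s : B))]
    exact hcoef' y

end H759R2.Kad
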