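import Mathlib
import Pool.Agent.H770R2.Kad.Props

open scoped ComplexOrder InnerProductSpace

noncomputable section

namespace H770R2.Kad

open H759R2.Kad

universe u v

namespace QuotAux

variable {A : Type u} [CStarAlgebra A] {B : Type v} [CStarAlgebra B]

theorem cont (ψ : A →⋆ₐ[ℂ] B) : Continuous ψ :=
  AddMonoidHomClass.continuous_of_bound ψ 1 fun x => by
    rw [one_mul]
    exact NonUnitalStarAlgHom.norm_apply_le ψ x

/-- self-adjoint elements of the kernel are products of two elements of the kernel -/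
theorem fac (ψ : A →⋆ₐ[ℂ] B) (a : A) (ha : IsSelfAdjoint a) (h : ψ a = 0) :
    ∃ b c : A, b * c = a ∧ ψ b = 0 ∧ ψ c = 0 := by
  let f : ℝ → ℝ := fun t => √t - √(-t)
  let g : ℝ → ℝ := fun t => √|t|
  have hf : Continuous f := by fun_prop
  have hg : Continuous g := by fun_prop
  have hψ : Continuous ψ := cont ψ
  have hψa : IsSelfAdjoint (ψ a) := by
    rw [h]
    exact IsSelfAdjoint.zero B
  refine ⟨cfc f a, cfc g a, ?_, ?_, ?_⟩
  · rw [← cfc_mul f g a hf.continuousOn hg.continuousOn]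
    have h1 : (fun t : ℝ => f t * g t) = fun t => t := by
      funext t
      simp only [f, g]
      rcases le_total 0 t with h2 | h2
      · rw [abs_of_nonneg h2, Real.sqrt_eq_zero_of_nonpos (show -t ≤ 0 by linarith), sub_zero,
          Real.mul_self_sqrt h2]
      · rw [abs_of_nonpos h2, Real.sqrt_eq_zero_of_nonpos h2, zero_sub, neg_mul,
          Real.mul_self_sqrt (by linarith), neg_neg]
    rw [h1]
    exact cfc_id' ℝ a ha
  · rw [StarAlgHom.map_cfc ψ f a hf.continuousOn hψ ha hψa, h, cfc_apply_zero]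
    simp [f]
  · rw [StarAlgHom.map_cfc ψ g a hg.continuousOn hψ ha hψa, h, cfc_apply_zero]
    simp [g]

/-- derivations vanish on the kernel -/
theorem key (ψ : A →⋆ₐ[ℂ] B) (D : A →ₗ[ℂ] B)
    (hD : ∀ a b, D (a * b) = ψ a * D b + D a * ψ b) (a : A) (h : ψ a = 0) : D a = 0 := by
  have hsa : ∀ x : A, IsSelfAdjoint x → ψ x = 0 → D x = 0 := by
    intro x hx hψx
    obtain ⟨b, c, hbc, hb, hc⟩ := fac ψ x hx hψx
    rw [← hbc, hD, hb, hc, zero_mul, mul_zero, add_zero]
  have hs : ψ (star a) = 0 := by rw [map_star, h, star_zero]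
  have h1 : D (a + star a) = 0 := hsa _ (IsSelfAdjoint.add_star_self a) (by
    rw [map_add, h, hs, add_zero])
  have h2 : D (Complex.I • (a - star a)) = 0 := hsa _ (by
    rw [isSelfAdjoint_iff, star_smul, star_sub, star_star, Complex.star_def, Complex.conj_I,
      neg_smul, ← smul_neg, neg_sub]) (by
    rw [map_smul, map_sub, h, hs, sub_zero, smul_zero])
  rw [map_smul, smul_eq_zero] at h2
  have h3 : D (a - star a) = 0 := h2.resolve_left Complex.I_ne_zero
  have h4 : (2 : ℂ) • D a = 0 := by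
    rw [map_add] at h1
    rw [map_sub] at h3
    calc (2 : ℂ) • D a = (D a + D (star a)) + (D a - D (star a)) := by
          rw [two_smul]
          abel
      _ = 0 := by rw [h1, h3, add_zero]
  exact (smul_eq_zero.1 h4).resolve_left two_ne_zero

/-- the range is closed -/
theorem closed (hl : G_lift.{u, v}) (ψ : A →⋆ₐ[ℂ] B) : IsClosed (ψ.range : Set B) := by
  let f : NormedAddGroupHom A B := AddMonoidHom.mkNormedAddGroupHom
    (AddMonoidHomClass.toAddMonoidHom ψ) 1 (fun a => by
      rw [one_mul]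
      exact NonUnitalStarAlgHom.norm_apply_le ψ a)
  have hf : ∀ a, f a = ψ a := fun _ => rfl
  have hs : f.SurjectiveOnWith f.range 1 := by
    intro b hb
    obtain ⟨a, ha⟩ := f.mem_range b |>.1 hb
    obtain ⟨a', h1, h2⟩ := hl A B ψ a
    refine ⟨a', ?_, ?_⟩
    · rw [hf, h1, ← hf, ha]
    · rw [one_mul, ← ha, hf]
      exact h2
  have hc := controlled_closure_of_complete one_pos one_pos hs
  apply isClosed_of_closure_subset
  intro y hy
  have hy' : y ∈ f.range.topologicalClosure := by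
    have h3 : (f.range : Set B) = (ψ.range : Set B) := by
      ext b
      constructor
      · intro hb
        obtain ⟨a, ha⟩ := f.mem_range b |>.1 hb
        exact ⟨a, ha⟩
      · rintro ⟨a, ha⟩
        exact f.mem_range b |>.2 ⟨a, ha⟩
    show y ∈ closure (f.range : Set B)
    rw [h3]
    exact hy
  obtain ⟨a, ha, _⟩ := hc y hy'
  exact ⟨a, ha⟩

end QuotAux

theorem prove_quot (h1 : G_lift.{u, v}) : G_quot.{u, v} := by
  intro A _ R _ ι D hD C hC hDb K _ _ _ ρ
  let ψ : A →⋆ₐ[ℂ] (K →L[ℂ] K) := ρ.comp ι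
  have hψ : ∀ a, ψ a = ρ (ι a) := fun _ => rfl
  let D0 : A →ₗ[ℂ] (K →L[ℂ] K) := ρ.toAlgHom.toLinearMap.comp D
  have hD0 : ∀ a, D0 a = ρ (D a) := fun _ => rfl
  have hD0' : ∀ a b, D0 (a * b) = ψ a * D0 b + D0 a * ψ b := by
    intro a b
    rw [hD0, hD, map_add, map_mul, map_mul]
    rfl
  have hkey : ∀ a b, ψ a = ψ b → D0 a = D0 b := by
    intro a b hab
    rw [← sub_eq_zero, ← map_sub]
    exact QuotAux.key ψ D0 hD0' (a - b) (by rw [map_sub, hab, sub_self])
  haveI hcl : IsClosed (ψ.range : Set (K →L[ℂ] K)) := QuotAux.closed h1 ψ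
  have hex : ∀ b : ψ.range, ∃ a : A, ψ a = (b : K →L[ℂ] K) := fun b => b.2
  choose pre hpre using hex
  let D' : ψ.range →ₗ[ℂ] (K →L[ℂ] K) :=
    { toFun := fun b => D0 (pre b)
      map_add' := fun b c => by
        rw [← map_add]
        apply hkey
        rw [map_add, hpre, hpre, hpre]
        rfl
      map_smul' := fun c b => by
        rw [RingHom.id_apply, ← map_smul]
        apply hkey
        rw [map_smul, hpre, hpre]
        rfl }
  have hD' : ∀ (a : A) (b : ψ.range), (b : K →L[ℂ] K) = ψ a → D' b = D0 a := by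
    intro a b hb
    exact hkey _ _ ((hpre b).trans hb)
  refine ⟨ψ.range, inferInstance, ψ.rangeRestrict, ψ.range.subtype, D', ?_, ?_, ?_, ?_, ?_, ?_⟩
  · intro b
    exact ⟨pre b, Subtype.ext (hpre b)⟩
  · exact Subtype.val_injective
  · intro a
    rfl
  · intro a
    rw [hD' a _ rfl, hD0]
  · intro b c
    show D' (b * c) = (b : K →L[ℂ] K) * D' c + D' b * (c : K →L[ℂ] K)
    rw [hD' (pre b * pre c) (b * c) (by rw [map_mul, hpre, hpre]; rfl), hD0', hpre, hpre,
      hD' (pre b) b (hpre b).symm, hD' (pre c) c (hpre c).symm]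
  · intro b
    obtain ⟨a', ha1, ha2⟩ := h1 A (K →L[ℂ] K) ψ (pre b)
    rw [hD' a' b (by rw [ha1, hpre]), hD0]
    calc ‖ρ (D a')‖ ≤ ‖D a'‖ := NonUnitalStarAlgHom.norm_apply_le ρ (D a')
      _ ≤ C * ‖a'‖ := hDb a'
      _ ≤ C * ‖b‖ := by
          apply mul_le_mul_of_nonneg_left _ hC
          refine ha2.trans (le_of_eq ?_)
          rw [hpre]
          rfl

end H770R2.Kad
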